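import Mathlib
import Pool.Agent.L0h79.FR.Defs
import Pool.Agent.TH796.AL.All

/-!
# Project FR: module REL
-/

set_option autoImplicit false
set_option linter.all false

namespace Pool.Agent.L0h59.FR

open Filter Topology Pool.Agent.TH932.Abs Pool.Agent.TH932.Germs Pool.Agent.TH932.Chi
open Pool.Agent.TH796.AL Pool.Agent.L0h79.FR

variable {m : ℕ} {B : Base m} {L : ℕ → ℝ}

theorem map_supp {K : Type} [Field K] {d : ℕ} (φ : (Fin d → ℤ) →+ (Fin m → ℝ))
    (f : AddMonoidAlgebra K (Fin d → ℤ)) {g : Fin m → ℝ}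
    (h : (AddMonoidAlgebra.mapDomainRingHom K φ f).coeff g ≠ 0) :
    ∃ n, f.coeff n ≠ 0 ∧ φ n = g := by
  classical
  have h0 : (AddMonoidAlgebra.mapDomainRingHom K φ f).coeff = Finsupp.mapDomain φ f.coeff := rfl
  rw [h0] at h
  have h1 := Finsupp.mapDomain_support (Finsupp.mem_support_iff.2 h)
  obtain ⟨n, hn, hng⟩ := Finset.mem_image.1 h1
  exact ⟨n, Finsupp.mem_support_iff.1 hn, hng⟩

theorem map_inj {K : Type} [Field K] {d : ℕ} (φ : (Fin d → ℤ) →+ (Fin m → ℝ))
    (hφ : Function.Injective φ) :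
    Function.Injective (AddMonoidAlgebra.mapDomainRingHom K φ :
      AddMonoidAlgebra K (Fin d → ℤ) →+* AddMonoidAlgebra K (Fin m → ℝ)) := by
  intro f f' h
  apply AddMonoidAlgebra.coeff_injective
  exact Finsupp.mapDomain_injective hφ (congrArg (fun x => x.coeff) h)

theorem exists_coeff {K : Type} [Field K] {A : Type} {f : AddMonoidAlgebra K A} (h : f ≠ 0) :
    ∃ n, f.coeff n ≠ 0 := by
  by_contra hc
  push Not at hc
  apply h
  apply AddMonoidAlgebra.coeff_injective
  ext x
  have := hc x
  simp [this]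

theorem rel (h1 : S_PRIM) (h2 : S_HGT) : S_REL := by
  classical
  intro m B L hL J _ ζ z C hC hind hex hζv hzv hζs hzs
  obtain ⟨D, H, hD, hDH⟩ := hex
  let ξ : Option J → GG := fun i => i.elim z ζ
  let a : Option J → Rg m hL := fun i => i.elim D fun j => -H j
  obtain ⟨d, φ, hφ, b, ⟨G, hG0, hG⟩, hprim⟩ := h1 (KK L hL) m (Option J) a ⟨none, hD⟩
  let Φ : AddMonoidAlgebra (KK L hL) (Fin d → ℤ) →+* Rg m hL :=
    AddMonoidAlgebra.mapDomainRingHom (KK L hL) φ
  have hΦ : Function.Injective Φ := map_inj φ hφ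
  have hsum : ∑ i, ev B hL (a i) * ξ i = 0 := by
    rw [Fintype.sum_option]
    change ev B hL D * z + ∑ j, ev B hL (-H j) * ζ j = 0
    rw [hDH, ← Finset.sum_add_distrib]
    apply Finset.sum_eq_zero
    intro j _
    rw [map_neg]; ring
  have hevG : ev B hL (Φ G) ≠ 0 := by
    intro h
    exact hG0 (hΦ (by rw [map_zero]; exact su_thm m B L hL _ h))
  have hrel : ∑ i, ev B hL (Φ (b i)) * ξ i = 0 := by
    have h3 : ev B hL (Φ G) * ∑ i, ev B hL (Φ (b i)) * ξ i = 0 := by
      rw [Finset.mul_sum, ← hsum]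
      refine Finset.sum_congr rfl fun i _ => ?_
      have h4 : a i = Φ (G * b i) := hG i
      rw [h4, map_mul Φ, map_mul (ev B hL)]; ring
    exact (mul_eq_zero.1 h3).resolve_left hevG
  have hbn : b none ≠ 0 := by
    intro h
    apply hD
    have h4 : a none = Φ (G * b none) := hG none
    rw [h, mul_zero, map_zero] at h4
    exact h4
  have hQ : ∀ c : Option J → AddMonoidAlgebra (KK L hL) (Fin d → ℤ),
      ∑ i, ev B hL (Φ (c i)) * ξ i = 0 →
      ∃ Q : AddMonoidAlgebra (KK L hL) (Fin d → ℤ), ∀ i, c i = Q * b i := by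
    intro c hc
    have h3 : ∀ i, b none * c i = c none * b i := by
      have h4 : ∑ j, ev B hL (Φ (b none * c (some j) - c none * b (some j))) * ζ j = 0 := by
        have h5 : ev B hL (Φ (b none)) * ∑ i, ev B hL (Φ (c i)) * ξ i
            - ev B hL (Φ (c none)) * ∑ i, ev B hL (Φ (b i)) * ξ i = 0 := by
          rw [hc, hrel]; ring
        rw [Finset.mul_sum, Finset.mul_sum, Fintype.sum_option, Fintype.sum_option] at h5
        have h6 : ∑ j, ev B hL (Φ (b none * c (some j) - c none * b (some j))) * ζ j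
            = (∑ j, ev B hL (Φ (b none)) * (ev B hL (Φ (c (some j))) * ξ (some j)))
              - ∑ j, ev B hL (Φ (c none)) * (ev B hL (Φ (b (some j))) * ξ (some j)) := by
          rw [← Finset.sum_sub_distrib]
          refine Finset.sum_congr rfl fun j _ => ?_
          rw [map_sub Φ, map_sub (ev B hL), map_mul Φ, map_mul Φ, map_mul (ev B hL),
            map_mul (ev B hL)]
          change _ * ζ j = _ * (_ * ζ j) - _ * (_ * ζ j)
          ring
        rw [h6]
        linear_combination h5
      have h5 := hind (fun j => Φ (b none * c (some j) - c none * b (some j))) h4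
      intro i
      cases i with
      | none => ring
      | some j =>
        have h6 : b none * c (some j) - c none * b (some j) = 0 := hΦ (by rw [map_zero]; exact h5 j)
        exact sub_eq_zero.1 h6
    apply hprim
    intro i j
    apply mul_left_cancel₀ hbn
    calc b none * (c i * b j) = (b none * c i) * b j := by ring
      _ = (c none * b i) * b j := by rw [h3]
      _ = (c none * b j) * b i := by ring
      _ = (b none * c j) * b i := by rw [h3]
      _ = b none * (c j * b i) := by ring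
  -- the minimum
  obtain ⟨n0, hn0⟩ := exists_coeff hbn
  have hμ : ∀ v : Option (Fin m), ∃ μ : ℝ, (∃ i n, (b i).coeff n ≠ 0 ∧ μ = lv B v (φ n)) ∧
      ∀ i n, (b i).coeff n ≠ 0 → μ ≤ lv B v (φ n) := by
    intro v
    let S : Finset (Option J × (Fin d → ℤ)) :=
      Finset.univ.biUnion fun i => (b i).coeff.support.image fun n => (i, n)
    have hS : ∀ i n, (i, n) ∈ S ↔ (b i).coeff n ≠ 0 := by
      intro i n
      simp only [S, Finset.mem_biUnion, Finset.mem_univ, true_and, Finset.mem_image,
        Finsupp.mem_support_iff, Prod.mk.injEq]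
      constructor
      · rintro ⟨i', n', hn', rfl, rfl⟩; exact hn'
      · intro h; exact ⟨i, n, h, rfl, rfl⟩
    obtain ⟨p, hp, hmin⟩ := S.exists_min_image (fun p => lv B v (φ p.2)) ⟨(none, n0), (hS _ _).2 hn0⟩
    refine ⟨lv B v (φ p.2), ⟨p.1, p.2, (hS _ _).1 hp, rfl⟩, fun i n hn => ?_⟩
    exact hmin (i, n) ((hS _ _).2 hn)
  choose μ hμ1 hμ2 using hμ
  have hh := h2 m B L hL (Option J) inferInstance ξ C hC
    (by intro v i; cases i with | none => exact hzv v | some j => exact hζv v j)
    (by intro i; cases i with | none => exact hzs | some j => exact hζs j)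
    d φ hφ b ⟨none, hbn⟩ hrel hQ μ hμ1 hμ2
  have hh' : -∑ v, μ v ≤ 2 * (m + 1) * C * (Fintype.card J + 1) := by
    refine hh.trans (le_of_eq ?_)
    rw [Fintype.card_option]; push_cast; ring
  have hbd : ∀ i n, (b i).coeff n ≠ 0 → ∀ v, |lv B v (-(φ n0) + φ n)|
      ≤ 2 * (m + 1) * C * (Fintype.card J + 1) := by
    intro i n hn
    let ν : Option (Fin m) → ℝ := fun v => lv B v (φ n0) - μ v
    have hν0 : ∀ v, 0 ≤ ν v := fun v => sub_nonneg.2 (hμ2 v none n0 hn0)
    have hνs : ∑ v, ν v ≤ 2 * (m + 1) * C * (Fintype.card J + 1) := by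
      rw [Finset.sum_sub_distrib, lv_sum]; linarith
    have hlow : ∀ v, -ν v ≤ lv B v (-(φ n0) + φ n) := by
      intro v
      rw [lv_add, lv_neg]
      have := hμ2 v i n hn
      simp only [ν]; linarith
    intro v
    have h3 : ν v ≤ ∑ u, ν u := Finset.single_le_sum (fun u _ => hν0 u) (Finset.mem_univ v)
    have h4 : lv B v (-(φ n0) + φ n) ≤ ∑ u, ν u := by
      have h5 := lv_sum (B := B) (-(φ n0) + φ n)
      rw [← Finset.add_sum_erase _ _ (Finset.mem_univ v)] at h5
      have h6 : -∑ u ∈ Finset.univ.erase v, ν u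
          ≤ ∑ u ∈ Finset.univ.erase v, lv B u (-(φ n0) + φ n) := by
        rw [← Finset.sum_neg_distrib]
        exact Finset.sum_le_sum fun u _ => hlow u
      have h7 : ∑ u ∈ Finset.univ.erase v, ν u ≤ ∑ u, ν u :=
        Finset.sum_le_sum_of_subset_of_nonneg (Finset.erase_subset _ _) fun u _ _ => hν0 u
      linarith
    rw [abs_le]
    exact ⟨by linarith [hlow v], by linarith⟩
  let τ : Rg m hL := AddMonoidAlgebra.single (-(φ n0)) 1
  have hτ : ∀ (i : Option J) (s : Rg m hL), (s = τ * Φ (b i) ∨ s = -(τ * Φ (b i))) →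
      Bdd B (2 * (m + 1) * C * (Fintype.card J + 1)) s := by
    intro i s hs g hg
    have hg' : (τ * Φ (b i)).coeff g ≠ 0 := by
      rcases hs with rfl | rfl
      · exact hg
      · intro h; apply hg
        have : (-(τ * Φ (b i))).coeff g = -((τ * Φ (b i)).coeff g) := by
          simp
        rw [this, h, neg_zero]
    obtain ⟨x, y, hx, hy, hxy⟩ := Dir.supp_mul hL hg'
    have hx' : x = -(φ n0) := by
      by_contra hne
      apply hx
      change (AddMonoidAlgebra.single (-(φ n0)) (1 : KK L hL)).coeff x = 0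
      rw [AddMonoidAlgebra.coeff_single, Finsupp.single_eq_of_ne]
      exact hne
    obtain ⟨n, hn, hny⟩ := map_supp φ (b i) hy
    intro v
    rw [← hxy, hx', ← hny]
    exact hbd i n hn v
  refine ⟨τ * Φ (b none), fun j => -(τ * Φ (b (some j))), ?_, ?_, hτ none _ (Or.inl rfl),
    fun j => hτ (some j) _ (Or.inr rfl)⟩
  · have hτ0 : τ ≠ 0 := by
      intro h
      have := congrArg (ev B hL) h
      rw [ev_single, map_zero] at this
      have h3 := ch_ne (B := B) hL (-(φ n0))
      apply h3
      simpa using this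
    exact mul_ne_zero hτ0 (fun h => hbn (hΦ (by rw [map_zero]; exact h)))
  · rw [Fintype.sum_option] at hrel
    change ev B hL (Φ (b none)) * z + ∑ j, ev B hL (Φ (b (some j))) * ζ j = 0 at hrel
    have h3 : ∑ j, ev B hL (-(τ * Φ (b (some j)))) * ζ j
        = -(ev B hL τ * ∑ j, ev B hL (Φ (b (some j))) * ζ j) := by
      rw [Finset.mul_sum, ← Finset.sum_neg_distrib]
      refine Finset.sum_congr rfl fun j _ => ?_
      rw [map_neg, map_mul]; ring
    rw [h3, map_mul]
    linear_combination (ev B hL τ) * hrel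

end Pool.Agent.L0h59.FR
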