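import Mathlib
import Pool.Agent.L0h79.FR.Defs

/-!
# Project FR: module TPOLY
-/

set_option autoImplicit false
set_option linter.all false

namespace Pool.Agent.L0h59.FR

open Pool.Agent.L0h79.FR

variable {α : Type} (σ : α → List α)

theorem sub_append (n : ℕ) : ∀ u v : List α, sub σ n (u ++ v) = sub σ n u ++ sub σ n v := by
  induction n with
  | zero => intro u v; rfl
  | succ n ih =>
    intro u v
    simp only [sub]
    rw [List.flatMap_append, ih]

theorem sub_nil (n : ℕ) : sub σ n [] = [] := by
  induction n with
  | zero => rfl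
  | succ n ih => simpa [sub] using ih

theorem sub_flatMap (n : ℕ) (u : List α) : sub σ n u = u.flatMap fun d => sub σ n [d] := by
  induction u with
  | nil => simpa using sub_nil σ n
  | cons a u ih =>
    have : (a :: u : List α) = [a] ++ u := rfl
    rw [this, sub_append, ih]
    simp

theorem sub_succ_single (n : ℕ) (c : α) :
    sub σ (n + 1) [c] = (σ c).flatMap fun d => sub σ n [d] := by
  rw [← sub_flatMap]
  simp [sub]

theorem paths_zero (R : Set α) (c : α) [Decidable (c ∈ R)] :
    paths σ R 0 c = if c ∈ R then 0 else 1 := by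
  unfold paths
  congr

theorem paths_succ (R : Set α) (n : ℕ) (c : α) [Decidable (c ∈ R)] :
    paths σ R (n + 1) c = if c ∈ R then 0 else ((σ c).map (paths σ R n)).sum := by
  rw [paths]
  congr

theorem paths_mem (R : Set α) {c : α} (hc : c ∈ R) (n : ℕ) : paths σ R n c = 0 := by
  classical
  cases n with
  | zero => rw [paths_zero, if_pos hc]
  | succ n => rw [paths_succ, if_pos hc]

theorem list_sum_le {l : List α} {f g : α → ℕ} (h : ∀ x ∈ l, f x ≤ g x) :
    (l.map f).sum ≤ (l.map g).sum := List.sum_le_sum h

/-- paths from `e` which do not return to `e` -/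
noncomputable def VV (X : Set α) (e : α) : ℕ → ℕ
  | 0 => 1
  | i + 1 => ((σ e).map (paths σ X i)).sum

theorem list_sum_add (l : List α) (f g : α → ℕ) :
    (l.map fun x => f x + g x).sum = (l.map f).sum + (l.map g).sum := by
  induction l with
  | nil => rfl
  | cons a l ih => simp only [List.map_cons, List.sum_cons, ih]; ring

theorem list_sum_finset (l : List α) {ι : Type} (s : Finset ι) (f : ι → α → ℕ) :
    (l.map fun x => ∑ j ∈ s, f j x).sum = ∑ j ∈ s, (l.map (f j)).sum := by
  induction l with
  | nil => simp
  | cons a l ih => simp only [List.map_cons, List.sum_cons, ih, Finset.sum_add_distrib]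

theorem list_sum_mul (l : List α) (f : α → ℕ) (k : ℕ) :
    (l.map fun x => f x * k).sum = (l.map f).sum * k := by
  induction l with
  | nil => simp
  | cons a l ih => simp only [List.map_cons, List.sum_cons, ih, add_mul]

theorem count_succ [DecidableEq α] (j : ℕ) (c e : α) :
    (sub σ (j + 1) [c]).count e = ((σ c).map fun d => (sub σ j [d]).count e).sum := by
  rw [sub_succ_single, List.count_flatMap]
  rfl

theorem key [DecidableEq α] (X : Set α) (e : α) (he : e ∉ X) : ∀ n c,
    paths σ X n c ≤ paths σ (insert e X) n c
      + ∑ j ∈ Finset.range (n + 1), (sub σ j [c]).count e * VV σ (insert e X) e (n - j) := by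
  classical
  intro n
  induction n with
  | zero =>
    intro c
    by_cases hc : c ∈ X
    · rw [paths_mem σ X hc]; omega
    · by_cases hce : c = e
      · subst hce
        rw [paths_zero, if_neg hc]
        simp [sub, VV]
      · rw [paths_zero, if_neg hc, paths_zero, if_neg (by
          rintro (h | h)
          · exact hce h
          · exact hc h)]
        omega
  | succ n ih =>
    intro c
    by_cases hc : c ∈ X
    · rw [paths_mem σ X hc]; omega
    · rw [paths_succ, if_neg hc]
      have h1 : ((σ c).map (paths σ X n)).sum ≤ ((σ c).map fun d => paths σ (insert e X) n d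
          + ∑ j ∈ Finset.range (n + 1), (sub σ j [d]).count e * VV σ (insert e X) e (n - j)).sum :=
        list_sum_le fun d _ => ih d
      refine h1.trans ?_
      rw [list_sum_add, list_sum_finset]
      have h2 : ∀ j ∈ Finset.range (n + 1),
          ((σ c).map fun d => (sub σ j [d]).count e * VV σ (insert e X) e (n - j)).sum
          = (sub σ (j + 1) [c]).count e * VV σ (insert e X) e (n + 1 - (j + 1)) := by
        intro j _
        rw [list_sum_mul, count_succ]
        congr 2
        omega
      rw [Finset.sum_congr rfl h2, Finset.sum_range_succ' _ (n + 1)]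
      have h3 : ((σ c).map (paths σ (insert e X) n)).sum ≤ paths σ (insert e X) (n + 1) c
          + (sub σ 0 [c]).count e * VV σ (insert e X) e (n + 1 - 0) := by
        by_cases hce : c = e
        · subst hce
          have : (sub σ 0 [c]).count c = 1 := by simp [sub]
          rw [this]
          simp [VV]
        · rw [paths_succ, if_neg (by
            rintro (h | h)
            · exact hce h
            · exact hc h)]
          omega
      omega

theorem pow_mono {K K' n : ℕ} (h : K ≤ K') : K * (n + 1) ^ K ≤ K' * (n + 1) ^ K' :=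
  Nat.mul_le_mul h (Nat.pow_le_pow_right (by omega) h)

theorem poly_step [DecidableEq α] (X : Set α) (e : α) (he : e ∉ X)
    (hcount : ∀ j, (sub σ (j + 1) [e]).count e ≤ 1) (K : ℕ)
    (hK : ∀ n c, paths σ (insert e X) n c ≤ K * (n + 1) ^ K) :
    ∃ K', ∀ n, paths σ X n e ≤ K' * (n + 1) ^ K' := by
  have hV : ∀ i, VV σ (insert e X) e i ≤ 1 + (σ e).length * (K * (i + 1) ^ K) := by
    intro i
    cases i with
    | zero => simp [VV]
    | succ i =>
      have h1 : ((σ e).map (paths σ (insert e X) i)).sum
          ≤ ((σ e).map fun _ => K * (i + 1) ^ K).sum := list_sum_le fun d _ => hK i d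
      have h2 : ((σ e).map fun _ => K * (i + 1) ^ K).sum = (σ e).length * (K * (i + 1) ^ K) := by
        rw [List.map_const', List.sum_replicate, smul_eq_mul]
      have h3 : K * (i + 1) ^ K ≤ K * (i + 1 + 1) ^ K :=
        Nat.mul_le_mul_left _ (Nat.pow_le_pow_left (by omega) _)
      have h4 : (σ e).length * (K * (i + 1) ^ K) ≤ (σ e).length * (K * (i + 1 + 1) ^ K) :=
        Nat.mul_le_mul_left _ h3
      change ((σ e).map (paths σ (insert e X) i)).sum ≤ _
      omega
  have hc : ∀ j, (sub σ j [e]).count e ≤ 1 := by
    intro j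
    cases j with
    | zero => simp [sub]
    | succ j => exact hcount j
  refine ⟨1 + (σ e).length * K + (K + 1), fun n => ?_⟩
  have h1 := key σ X e he n e
  rw [paths_mem σ (insert e X) (Set.mem_insert e X), zero_add] at h1
  have h2 : ∑ j ∈ Finset.range (n + 1), (sub σ j [e]).count e * VV σ (insert e X) e (n - j)
      ≤ ∑ j ∈ Finset.range (n + 1), (1 + (σ e).length * K) * (n + 1) ^ K := by
    refine Finset.sum_le_sum fun j _ => ?_
    have h3 := hV (n - j)
    have h4 : (n - j + 1) ^ K ≤ (n + 1) ^ K := Nat.pow_le_pow_left (by omega) _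
    have h5 : 1 ≤ (n + 1) ^ K := Nat.one_le_pow _ _ (by omega)
    calc (sub σ j [e]).count e * VV σ (insert e X) e (n - j)
        ≤ 1 * (1 + (σ e).length * (K * (n - j + 1) ^ K)) := Nat.mul_le_mul (hc j) h3
      _ ≤ 1 * (n + 1) ^ K + (σ e).length * (K * (n + 1) ^ K) := by
          rw [one_mul, one_mul]
          exact Nat.add_le_add h5 (Nat.mul_le_mul_left _ (Nat.mul_le_mul_left _ h4))
      _ = _ := by ring
  rw [Finset.sum_const, Finset.card_range, smul_eq_mul] at h2
  calc paths σ X n e ≤ (n + 1) * ((1 + (σ e).length * K) * (n + 1) ^ K) := h1.trans h2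
    _ = (1 + (σ e).length * K) * (n + 1) ^ (K + 1) := by ring
    _ ≤ (1 + (σ e).length * K + (K + 1)) * (n + 1) ^ (1 + (σ e).length * K + (K + 1)) :=
        Nat.mul_le_mul (by omega) (Nat.pow_le_pow_right (by omega) (by omega))

theorem tpoly : S_TPOLY := by
  classical
  intro α hα _ σ R hR
  have : Fintype α := Fintype.ofFinite α
  have main : ∀ s : ℕ, ∀ Y : Finset α, Y.card = s → (∀ e ∈ Y, e ∉ R) →
      ∃ K : ℕ, ∀ n c, paths σ ((Y : Set α)ᶜ) n c ≤ K * (n + 1) ^ K := by
    intro s
    induction s with
    | zero =>
      intro Y hY _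
      rw [Finset.card_eq_zero] at hY
      subst hY
      refine ⟨0, fun n c => ?_⟩
      rw [paths_mem σ _ (by simp)]
      omega
    | succ s ih =>
      intro Y hY hYR
      have h1 : ∀ e : α, ∃ K : ℕ, ∀ n, paths σ ((Y : Set α)ᶜ) n e ≤ K * (n + 1) ^ K := by
        intro e
        by_cases he : e ∈ Y
        · obtain ⟨K, hK⟩ := ih (Y.erase e) (by rw [Finset.card_erase_of_mem he]; omega)
            (fun x hx => hYR x (Finset.mem_of_mem_erase hx))
          have h2 : ((Y.erase e : Finset α) : Set α)ᶜ = insert e ((Y : Set α)ᶜ) := by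
            ext x
            simp only [Finset.coe_erase, Set.mem_compl_iff, Set.mem_diff, Finset.mem_coe,
              Set.mem_singleton_iff, Set.mem_insert_iff]
            tauto
          rw [h2] at hK
          exact poly_step σ ((Y : Set α)ᶜ) e (by simpa using he)
            (fun j => by convert hR e (hYR e he) j) K hK
        · refine ⟨0, fun n => ?_⟩
          rw [paths_mem σ _ (by simpa using he)]
          omega
      choose Kf hKf using h1
      refine ⟨∑ e, Kf e, fun n c => (hKf c n).trans (pow_mono ?_)⟩
      exact Finset.single_le_sum (f := Kf) (fun _ _ => Nat.zero_le _) (Finset.mem_univ c)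
  obtain ⟨K, hK⟩ := main _ (Finset.univ.filter fun e => e ∉ R) rfl (fun e he => (Finset.mem_filter.1 he).2)
  refine ⟨K, fun n c => ?_⟩
  have h3 : ((Finset.univ.filter fun e => e ∉ R : Finset α) : Set α)ᶜ = R := by
    ext x; simp
  rw [h3] at hK
  exact hK n c

end Pool.Agent.L0h59.FR
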